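import Pool.Agent.H789R2.FlowEx

set_option autoImplicit false

open Set Filter Topology

namespace Pool.Agent.Results.MP_8f0dee_an.LelongObstruction

open Pool.Agent.H789R2.Flow

/-- **Q1 has a negative answer in every dimension `n ≥ 1`.**

For all admissible data (a bounded strictly pseudoconvex domain `Ω` with smooth boundary, `T > 0`,
a plurisubharmonic `u₀` near the closure of `Ω`, smooth boundary data `φ` with `φ(z,t) = u₀(z)` on
the boundary) such that `u₀` has a positive Lelong number at some point of `Ω`, the flow has no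
solution. Moreover such data exist for every `T > 0` (for instance the unit ball, `u₀ = log |z|`,
`φ = 0`), so that existence fails for some unbounded plurisubharmonic initial datum. -/
theorem result (n : ℕ) (hn : 1 ≤ n) :
    (∀ D : Data n, D.Admissible → (∃ a ∈ D.Ω, PosLelong D.u₀ a) → ¬ ∃ u, D.IsSolution u) ∧
      ∀ T : ℝ, 0 < T → ∃ D : Data n, D.T = T ∧ D.Admissible ∧ ¬ ∃ u, D.IsSolution u := by
  have h1 : ∀ D : Data n, D.Admissible → (∃ a ∈ D.Ω, PosLelong D.u₀ a) →
      ¬ ∃ u, D.IsSolution u := by
    rintro D hD ⟨a, ha, hL⟩ ⟨u, hu⟩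
    exact no_solution hn D hD.domain.1 hD.domain.2.2.1 hD.time hD.smooth.continuousOn ha hL u hu
  refine ⟨h1, fun T hT => ⟨exData n T, rfl, exData_admissible hn hT, ?_⟩⟩
  refine h1 _ (exData_admissible hn hT) ⟨0, ?_, posLelong_logNorm⟩
  show eucl 0 < 1
  rw [eucl_zero]
  norm_num

end Pool.Agent.Results.MP_8f0dee_an.LelongObstruction
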